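import Pool.Agent.Q328.VD.Good

set_option autoImplicit false

/-! Few changes of digits in the entries of an integer vector: arbitrary index types. -/

namespace Pool.Agent.Q328.VD
open Finset Filter
open Pool.Agent.TH894.SM (change)

open Classical in
theorem good (b : ℕ) (hb : 2 ≤ b) (B ε κ θ : ℝ) (hB : 0 < B) (hε : 0 < ε) (hκ : 0 < κ) (hθ : 0 < θ) (ι : Type) [Fintype ι] [DecidableEq ι]
    (P : ℕ → Prop) (G : ∀ p : ℕ, Set (ι → ZMod p))
    (hG : ∀ p, P p → p.Prime ∧ κ * (p : ℝ) ^ (Fintype.card ι) ≤ (Nat.card (G p) : ℝ))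
    (hP : ∃ y₀ : ℕ, ∀ y : ℕ, y₀ ≤ y → (y : ℝ) ^ θ ≤ (Nat.card {p : ℕ // P p ∧ p ≤ y} : ℝ)) :
    ∃ C : ℝ, 0 < C ∧ ∃ K₀ : ℕ, ∀ K : ℕ, K₀ ≤ K → ∀ r : ℕ, C * Real.log K ≤ r → 2 * r ≤ K →
      ∀ N : ι → ℕ, (∀ i, N i < b ^ K) → ∀ s : ι → ℤ, (∀ i, s i = 1 ∨ s i = -1) →
      ∀ f : ι → ℕ → ℕ, (∀ i j, f i j < b ∧ f i j ≠ N i / b ^ j % b) →
      (((Fintype.piFinset (fun _ : ι => powersetCard r (range K))).filter (fun S => ∀ p, P p → (p : ℝ) ≤ (K : ℝ) ^ ε →
        (fun i => ((s i * ((change b K (N i) (f i) (S i) : ℕ) : ℤ) : ℤ) : ZMod p)) ∉ G p)).card : ℝ) ≤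
        (K : ℝ) ^ (-B) * (K.choose r : ℝ) ^ (Fintype.card ι) := by
  obtain ⟨e⟩ : Nonempty (ι ≃ Fin (Fintype.card ι)) := ⟨Fintype.equivFin ι⟩
  obtain ⟨C, hC, K₀, h⟩ := good_fin b hb B ε κ θ hB hε hκ hθ (Fintype.card ι) P
    (fun p => {v | (fun i => v (e i)) ∈ G p}) (by
      intro p hp
      refine ⟨(hG p hp).1, (hG p hp).2.trans (Nat.cast_le.2 ?_)⟩
      have : NeZero p := ⟨(hG p hp).1.ne_zero⟩
      refine Nat.card_le_card_of_injective (fun g : G p => (⟨fun i => g.1 (e.symm i), ?_⟩ :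
        {v : Fin (Fintype.card ι) → ZMod p | (fun i => v (e i)) ∈ G p})) ?_
      · show (fun i => g.1 (e.symm (e i))) ∈ G p
        simp only [Equiv.symm_apply_apply]
        exact g.2
      · intro g g' h
        apply Subtype.ext
        funext i
        have h1 := congrFun (congrArg Subtype.val h) (e i)
        simpa using h1) hP
  refine ⟨C, hC, K₀, fun K hK r hr hrK N hN s hs f hf => ?_⟩
  have h1 := h K hK r hr hrK (fun i => N (e.symm i)) (fun i => hN _) (fun i => s (e.symm i)) (fun i => hs _)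
    (fun i => f (e.symm i)) (fun i => hf _)
  refine le_trans (Nat.cast_le.2 ?_) h1
  refine card_le_card_of_injOn (fun S i => S (e.symm i)) ?_ ?_
  · intro S hS
    have hS1 := mem_filter.1 (mem_coe.1 hS)
    rw [mem_coe, mem_filter, Fintype.mem_piFinset]
    refine ⟨fun i => Fintype.mem_piFinset.1 hS1.1 _, fun p hp hpK hmem => ?_⟩
    refine hS1.2 p hp hpK ?_
    have h2 : (fun i => ((s (e.symm (e i)) * ((change b K (N (e.symm (e i))) (f (e.symm (e i))) (S (e.symm (e i))) : ℕ) : ℤ) : ℤ) :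
      ZMod p)) ∈ G p := hmem
    simp only [Equiv.symm_apply_apply] at h2
    exact h2
  · intro S _ S' _ h
    funext i
    have h1 := congrFun h (e i)
    simpa using h1

end Pool.Agent.Q328.VD
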