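import Pool.Agent.Q328.VD.Vec

set_option autoImplicit false

/-! Few changes of digits in the entries of an integer vector: some small prime is good. -/

namespace Pool.Agent.Q328.VD
open Finset Filter
open Pool.Agent.TH894.SM (change)
open Pool.Agent.TH894.ND

open Classical in
lemma mn_ge (p D : ℕ) (hp : 0 < p) (s : Fin D → ℤ) (hs : ∀ i, s i = 1 ∨ s i = -1) (G : Set (Fin D → ZMod p)) (κ : ℝ)
    (hκ : κ * (p : ℝ) ^ D ≤ (Nat.card G : ℝ)) :
    κ ≤ mn p D (fun v => if (fun i => ((s i * (v i : ℤ) : ℤ) : ZMod p)) ∈ G then (1 : ℝ) else 0) := by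
  have hp0 : (0 : ℝ) < (p : ℝ) ^ D := by positivity
  unfold mn
  rw [le_div_iff₀ hp0]
  refine hκ.trans ?_
  rw [← sum_filter, sum_const, nsmul_eq_mul, mul_one]
  have : NeZero p := ⟨hp.ne'⟩
  have hss : ∀ i, s i * s i = 1 := by
    intro i
    rcases hs i with h | h <;> rw [h] <;> norm_num
  have hcast : ∀ (g : Fin D → ZMod p) (i : Fin D), ((s i * ((((s i : ZMod p) * g i).val : ℕ) : ℤ) : ℤ) : ZMod p) = g i := by
    intro g i
    push_cast
    rw [ZMod.natCast_zmod_val, ← mul_assoc]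
    have h1 : (s i : ZMod p) * (s i : ZMod p) = 1 := by
      have h2 : ((s i * s i : ℤ) : ZMod p) = ((1 : ℤ) : ZMod p) := by rw [hss i]
      push_cast at h2
      exact h2
    rw [h1, one_mul]
  obtain ⟨W, hW⟩ : ∃ W, W = (Fintype.piFinset (fun _ : Fin D => range p)).filter
    (fun v => (fun i => ((s i * (v i : ℤ) : ℤ) : ZMod p)) ∈ G) := ⟨_, rfl⟩
  rw [← hW]
  have h1 : Nat.card G ≤ Nat.card W := by
    refine Nat.card_le_card_of_injective (fun g : G => (⟨fun i => ((s i : ZMod p) * g.1 i).val, ?_⟩ : W)) ?_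
    · rw [hW, mem_filter, Fintype.mem_piFinset]
      refine ⟨fun i => mem_range.2 (ZMod.val_lt _), ?_⟩
      have h2 : (fun i => ((s i * ((((s i : ZMod p) * g.1 i).val : ℕ) : ℤ) : ℤ) : ZMod p)) = g.1 := by
        funext i
        exact hcast g.1 i
      rw [h2]
      exact g.2
    · intro g g' h
      apply Subtype.ext
      funext i
      have h3 := congrFun (congrArg Subtype.val h) i
      have h4 := hcast g.1 i
      have h5 := hcast g'.1 i
      have h6 : ((s i : ZMod p) * g.1 i).val = ((s i : ZMod p) * g'.1 i).val := h3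
      rw [h6] at h4
      rw [← h4, h5]
  rw [Nat.card_eq_fintype_card, Nat.card_eq_fintype_card, Fintype.card_coe] at h1
  rw [Nat.card_eq_fintype_card]
  exact_mod_cast h1

open Classical in
theorem good_fin (b : ℕ) (hb : 2 ≤ b) (B ε κ θ : ℝ) (hB : 0 < B) (hε : 0 < ε) (hκ : 0 < κ) (hθ : 0 < θ) (D : ℕ)
    (P : ℕ → Prop) (G : ∀ p : ℕ, Set (Fin D → ZMod p))
    (hG : ∀ p, P p → p.Prime ∧ κ * (p : ℝ) ^ D ≤ (Nat.card (G p) : ℝ))
    (hP : ∃ y₀ : ℕ, ∀ y : ℕ, y₀ ≤ y → (y : ℝ) ^ θ ≤ (Nat.card {p : ℕ // P p ∧ p ≤ y} : ℝ)) :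
    ∃ C : ℝ, 0 < C ∧ ∃ K₀ : ℕ, ∀ K : ℕ, K₀ ≤ K → ∀ r : ℕ, C * Real.log K ≤ r → 2 * r ≤ K →
      ∀ N : Fin D → ℕ, (∀ i, N i < b ^ K) → ∀ s : Fin D → ℤ, (∀ i, s i = 1 ∨ s i = -1) →
      ∀ f : Fin D → ℕ → ℕ, (∀ i j, f i j < b ∧ f i j ≠ N i / b ^ j % b) →
      (((Fintype.piFinset (fun _ : Fin D => powersetCard r (range K))).filter (fun S => ∀ p, P p → (p : ℝ) ≤ (K : ℝ) ^ ε →
        (fun i => ((s i * ((change b K (N i) (f i) (S i) : ℕ) : ℤ) : ℤ) : ZMod p)) ∉ G p)).card : ℝ) ≤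
        (K : ℝ) ^ (-B) * (K.choose r : ℝ) ^ D := by
  obtain ⟨y₀, hy₀⟩ := hP
  obtain ⟨c, hc, x₀, hvec⟩ := vec b hb (θ / 8) ((2 * B + 2) / ε) (by positivity)
  -- eventual inequalities in `x`
  have ev1 : ∀ᶠ x : ℕ in atTop, ((b : ℝ) * b + 1) + 1 ≤ (x : ℝ) ^ (θ / 2) :=
    ((tendsto_rpow_atTop (by positivity)).comp tendsto_natCast_atTop_atTop).eventually (eventually_ge_atTop _)
  have ev2 : ∀ᶠ x : ℕ in atTop, 2 * (D : ℝ) / κ + 1 ≤ (x : ℝ) ^ (θ / 8) :=
    ((tendsto_rpow_atTop (by positivity)).comp tendsto_natCast_atTop_atTop).eventually (eventually_ge_atTop _)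
  obtain ⟨x₁, hx₁⟩ := eventually_atTop.1 ev1
  obtain ⟨x₂, hx₂⟩ := eventually_atTop.1 ev2
  obtain ⟨X, hX⟩ : ∃ X, X = x₀ + x₁ + x₂ + y₀ + 2 := ⟨_, rfl⟩
  have ev3 : ∀ᶠ K : ℕ in atTop, (X : ℝ) + 2 ≤ (K : ℝ) ^ (ε / 2) :=
    ((tendsto_rpow_atTop (by positivity)).comp tendsto_natCast_atTop_atTop).eventually (eventually_ge_atTop _)
  obtain ⟨K₁, hK₁⟩ := eventually_atTop.1 ev3
  refine ⟨ε / c, by positivity, K₁ + D + 1, fun K hK r hr hrK N hN s hs f hf => ?_⟩
  have hK1 := hK₁ K (by omega)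
  have hKD : (D : ℝ) ≤ K := by exact_mod_cast (by omega : D ≤ K)
  have hK0 : (0 : ℝ) < K := by exact_mod_cast (by omega : 0 < K)
  have hK1' : (1 : ℝ) ≤ K := by exact_mod_cast (by omega : 1 ≤ K)
  have hX0 : (0 : ℝ) ≤ X := Nat.cast_nonneg _
  obtain ⟨u, hu⟩ : ∃ u, u = (K : ℝ) ^ (ε / 2) := ⟨_, rfl⟩
  have hu2 : (K : ℝ) ^ ε = u * u := by
    rw [hu, ← Real.rpow_add hK0]
    congr 1
    ring
  rw [← hu] at hK1
  obtain ⟨x, hx⟩ : ∃ x, x = ⌊(K : ℝ) ^ ε⌋₊ := ⟨_, rfl⟩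
  have hxle : (x : ℝ) ≤ (K : ℝ) ^ ε := by rw [hx]; exact Nat.floor_le (by positivity)
  have hxge : u ≤ x := by
    have h1 := Nat.lt_floor_add_one ((K : ℝ) ^ ε)
    rw [← hx, hu2] at h1
    nlinarith
  have hxX : X ≤ x := by
    have : (X : ℝ) ≤ x := by linarith
    exact_mod_cast this
  have hx0 : (0 : ℝ) < x := by linarith
  have e1 := hx₁ x (by omega)
  have e2 := hx₂ x (by omega)
  have e3 := hy₀ x (by omega)
  have hlog : Real.log x ≤ c * r := by
    have h1 : Real.log x ≤ Real.log ((K : ℝ) ^ ε) := Real.log_le_log hx0 hxle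
    rw [Real.log_rpow hK0] at h1
    have h2 : ε / c * Real.log K * c ≤ r * c := mul_le_mul_of_nonneg_right hr hc.le
    have h3 : ε / c * Real.log K * c = ε * Real.log K := by field_simp
    linarith
  -- the primes
  obtain ⟨P', hP'⟩ : ∃ P', P' = (range (x + 1)).filter (fun p => P p ∧ b * b < p) := ⟨_, rfl⟩
  have hPc : (x : ℝ) ^ (θ / 2) ≤ P'.card := by
    obtain ⟨P₁, hP₁⟩ : ∃ P₁, P₁ = (range (x + 1)).filter (fun p => P p) := ⟨_, rfl⟩
    have h1 : Nat.card {p : ℕ // P p ∧ p ≤ x} ≤ P₁.card := by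
      have h2 : Nat.card {p : ℕ // P p ∧ p ≤ x} ≤ Nat.card P₁ :=
        Nat.card_le_card_of_injective (fun p : {p : ℕ // P p ∧ p ≤ x} => (⟨p.1, by
          rw [hP₁, mem_filter, mem_range]
          exact ⟨by have := p.2.2; omega, p.2.1⟩⟩ : P₁)) (fun p q h => by
          apply Subtype.ext
          have h5 := congrArg Subtype.val h
          exact h5)
      rw [Nat.card_eq_fintype_card (α := P₁), Fintype.card_coe] at h2
      exact h2
    have h2 : P₁.card ≤ P'.card + (b * b + 1) := by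
      have h3 : P₁ ⊆ P' ∪ range (b * b + 1) := by
        intro p hp
        rw [hP₁, mem_filter] at hp
        rw [mem_union, hP', mem_filter]
        by_cases h4 : b * b < p
        · exact Or.inl ⟨hp.1, hp.2, h4⟩
        · right
          rw [mem_range]
          omega
      refine (card_le_card h3).trans ((card_union_le _ _).trans ?_)
      rw [card_range]
    have h3 : (Nat.card {p : ℕ // P p ∧ p ≤ x} : ℝ) ≤ (P'.card : ℝ) + ((b : ℝ) * b + 1) := by exact_mod_cast h1.trans h2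
    have h4 : (x : ℝ) ^ θ = (x : ℝ) ^ (θ / 2) * (x : ℝ) ^ (θ / 2) := by
      rw [← Real.rpow_add hx0]
      congr 1
      ring
    rw [h4] at e3
    obtain ⟨w, hw⟩ : ∃ w, w = (x : ℝ) ^ (θ / 2) := ⟨_, rfl⟩
    rw [← hw] at e3 e1 ⊢
    have hb0 : (0 : ℝ) ≤ (b : ℝ) * b := by positivity
    nlinarith
  have hmain := hvec D r K x hrK (by omega) hlog N hN f hf P' (by
    intro p hp
    rw [hP', mem_filter, mem_range] at hp
    exact ⟨(hG p hp.2.1).1, hp.2.2, by omega⟩)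
    (fun p v => if (fun i => ((s i * (v i : ℤ) : ℤ) : ZMod p)) ∈ G p then (1 : ℝ) else 0) (by
    intro p _
    constructor
    · intro v w hvw
      have h1 : (fun i => ((s i * (v i : ℤ) : ℤ) : ZMod p)) = fun i => ((s i * (w i : ℤ) : ℤ) : ZMod p) := by
        funext i
        push_cast
        rw [(ZMod.natCast_eq_natCast_iff _ _ _).2 (hvw i)]
      show (if (fun i => ((s i * (v i : ℤ) : ℤ) : ZMod p)) ∈ G p then (1 : ℝ) else 0) = _
      rw [h1]
    · intro v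
      show |(if (fun i => ((s i * (v i : ℤ) : ℤ) : ZMod p)) ∈ G p then (1 : ℝ) else 0)| ≤ 1
      split_ifs <;> norm_num)
  refine le_trans ?_ (hmain.trans ?_)
  · refine Nat.cast_le.2 (card_le_card ?_)
    intro S hS
    rw [mem_filter] at hS ⊢
    refine ⟨hS.1, ?_⟩
    have h0 : ∀ p ∈ P', (if (fun i => ((s i * (((change b K (N i) (f i) (S i) : ℕ)) : ℤ) : ℤ) : ZMod p)) ∈ G p
        then (1 : ℝ) else 0) = 0 := by
      intro p hp
      rw [hP', mem_filter, mem_range] at hp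
      rw [if_neg]
      refine hS.2 p hp.2.1 (le_trans ?_ hxle)
      exact_mod_cast (by omega : p ≤ x)
    have h1 : κ * P'.card ≤ |∑ p ∈ P', ((if (fun i => ((s i * (((change b K (N i) (f i) (S i) : ℕ)) : ℤ) : ℤ) : ZMod p)) ∈ G p
        then (1 : ℝ) else 0) - mn p D (fun v => if (fun i => ((s i * (v i : ℤ) : ℤ) : ZMod p)) ∈ G p then (1 : ℝ) else 0))| := by
      rw [sum_congr rfl fun p hp => by rw [h0 p hp, zero_sub], sum_neg_distrib, abs_neg]
      refine le_trans ?_ (le_abs_self _)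
      rw [mul_comm, ← nsmul_eq_mul, ← sum_const]
      refine sum_le_sum fun p hp => ?_
      rw [hP', mem_filter, mem_range] at hp
      exact mn_ge p D (hG p hp.2.1).1.pos s hs (G p) κ (hG p hp.2.1).2
    refine lt_of_lt_of_le ?_ h1
    -- `2 D sqrt P x^(θ/8) < κ P`
    have hPpos : (0 : ℝ) < P'.card := lt_of_lt_of_le (by positivity) hPc
    have hsq : (x : ℝ) ^ (θ / 4) ≤ Real.sqrt P'.card := by
      apply Real.le_sqrt_of_sq_le
      refine le_trans (le_of_eq ?_) hPc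
      rw [← Real.rpow_natCast, ← Real.rpow_mul hx0.le]
      congr 1
      push_cast
      ring
    have hsplit : (x : ℝ) ^ (θ / 4) = (x : ℝ) ^ (θ / 8) * (x : ℝ) ^ (θ / 8) := by
      rw [← Real.rpow_add hx0]
      congr 1
      ring
    have hss : (P'.card : ℝ) = Real.sqrt P'.card * Real.sqrt P'.card := (Real.mul_self_sqrt hPpos.le).symm
    obtain ⟨t, ht⟩ : ∃ t, t = (x : ℝ) ^ (θ / 8) := ⟨_, rfl⟩
    obtain ⟨q, hq⟩ : ∃ q, q = Real.sqrt P'.card := ⟨_, rfl⟩
    have hq0 : 0 < q := by rw [hq]; exact Real.sqrt_pos.2 hPpos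
    rw [← ht] at e2 hsplit
    rw [hsplit, ← hq] at hsq
    rw [← hq] at hss
    rw [← hq, hss, ← ht]
    have ht0 : 0 < t := by
      have : 0 ≤ 2 * (D : ℝ) / κ := by positivity
      linarith
    have h2 : 2 * (D : ℝ) < κ * t := by
      have h3 : 2 * (D : ℝ) / κ < t := by linarith
      rw [div_lt_iff₀ hκ] at h3
      linarith
    calc 2 * (D : ℝ) * (q * t) < κ * t * (q * t) := mul_lt_mul_of_pos_right h2 (by positivity)
      _ = κ * (q * (t * t)) := by ring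
      _ ≤ κ * (q * q) := mul_le_mul_of_nonneg_left (mul_le_mul_of_nonneg_left hsq hq0.le) hκ.le
  · refine mul_le_mul_of_nonneg_right ?_ (by positivity)
    have h1 : (x : ℝ) ^ (-((2 * B + 2) / ε)) ≤ (K : ℝ) ^ (-(B + 1)) := by
      have h2 : (x : ℝ) ^ (-((2 * B + 2) / ε)) ≤ u ^ (-((2 * B + 2) / ε)) :=
        Real.rpow_le_rpow_of_nonpos (by rw [hu]; positivity) hxge (by
          have : 0 < (2 * B + 2) / ε := by positivity
          linarith)
      refine h2.trans (le_of_eq ?_)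
      rw [hu, ← Real.rpow_mul hK0.le]
      congr 1
      field_simp
    have h3 : (K : ℝ) ^ (-B) = K * (K : ℝ) ^ (-(B + 1)) := by
      nth_rw 2 [← Real.rpow_one (K : ℝ)]
      rw [← Real.rpow_add hK0]
      congr 1
      ring
    rw [h3]
    exact mul_le_mul hKD h1 (by positivity) hK0.le

end Pool.Agent.Q328.VD
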