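import Pool.Agent.TH894.ND6

set_option autoImplicit false

/-! Few changes of digits in the entries of an integer vector: functions of the residues modulo primes. -/

namespace Pool.Agent.Q328.VD
open Finset Filter
open Pool.Agent.TH894.SM (change)
open Pool.Agent.TH894.ND

/-- the average over the residues modulo `p` -/
noncomputable def mn (p D : ℕ) (F : (Fin D → ℕ) → ℝ) : ℝ :=
  (∑ v ∈ Fintype.piFinset (fun _ : Fin D => range p), F v) / (p : ℝ) ^ D

lemma sum_cons {M : Type*} [AddCommMonoid M] {α : Type*} [DecidableEq α] (D : ℕ) (X : Finset α) (F : (Fin (D + 1) → α) → M) :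
    ∑ w ∈ Fintype.piFinset (fun _ : Fin (D + 1) => X), F w
      = ∑ v ∈ Fintype.piFinset (fun _ : Fin D => X), ∑ n ∈ X, F (Fin.cons n v) := by
  rw [← sum_product']
  symm
  refine sum_nbij' (i := fun x : (Fin D → α) × α => (Fin.cons x.2 x.1 : Fin (D + 1) → α))
    (j := fun w => (Fin.tail w, w 0)) ?_ ?_ ?_ ?_ ?_
  · intro x hx
    rw [mem_product] at hx
    rw [Fintype.mem_piFinset]
    intro i
    refine Fin.cases ?_ (fun j => ?_) i
    · rw [Fin.cons_zero]; exact hx.2
    · rw [Fin.cons_succ]; exact (Fintype.mem_piFinset.1 hx.1) j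
  · intro w hw
    rw [Fintype.mem_piFinset] at hw
    rw [mem_product, Fintype.mem_piFinset]
    exact ⟨fun i => hw i.succ, hw 0⟩
  · intro x _
    simp
  · intro w _
    simp
  · intro x _
    rfl

lemma mn_succ (p D : ℕ) (F : (Fin (D + 1) → ℕ) → ℝ) :
    mn p (D + 1) F = mn p D (fun v => (∑ n ∈ range p, F (Fin.cons n v)) / p) := by
  unfold mn
  rw [sum_cons, ← sum_div, div_div, pow_succ, mul_comm ((p : ℝ) ^ D)]

theorem vec (b : ℕ) (hb : 2 ≤ b) (δ A : ℝ) (hδ : 0 < δ) : ∃ c : ℝ, 0 < c ∧ ∃ x₀ : ℕ, ∀ (D r K x : ℕ), 2 * r ≤ K → x₀ ≤ x →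
    Real.log x ≤ c * r → ∀ N : Fin D → ℕ, (∀ i, N i < b ^ K) →
    ∀ f : Fin D → ℕ → ℕ, (∀ i j, f i j < b ∧ f i j ≠ N i / b ^ j % b) →
    ∀ P : Finset ℕ, (∀ p ∈ P, p.Prime ∧ b * b < p ∧ p ≤ x) → ∀ F : ℕ → (Fin D → ℕ) → ℝ,
    (∀ p ∈ P, (∀ v w : Fin D → ℕ, (∀ i, v i ≡ w i [MOD p]) → F p v = F p w) ∧ (∀ v, |F p v| ≤ 1)) →
    (((Fintype.piFinset (fun _ : Fin D => powersetCard r (range K))).filter (fun S => 2 * D * (Real.sqrt P.card * (x : ℝ) ^ δ) <
      |∑ p ∈ P, (F p (fun i => change b K (N i) (f i) (S i)) - mn p D (F p))|)).card : ℝ) ≤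
      D * (x : ℝ) ^ (-A) * (K.choose r : ℝ) ^ D := by
  classical
  obtain ⟨c, hc, x₀, h⟩ := engine b hb δ A hδ
  refine ⟨c, hc, x₀, fun D => ?_⟩
  induction D with
  | zero =>
    intro r K x _ _ _ N _ f _ P _ F _
    have h1 : (Fintype.piFinset (fun _ : Fin 0 => powersetCard r (range K))).filter (fun S => 2 * ((0 : ℕ) : ℝ) *
        (Real.sqrt P.card * (x : ℝ) ^ δ) <
        |∑ p ∈ P, (F p (fun i => change b K (N i) (f i) (S i)) - mn p 0 (F p))|) = ∅ := by
      apply filter_eq_empty_iff.2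
      intro S _
      have h2 : ∀ p, F p (fun i => change b K (N i) (f i) (S i)) = mn p 0 (F p) := by
        intro p
        unfold mn
        rw [Fintype.piFinset_of_isEmpty]
        simp only [univ_unique, sum_singleton, pow_zero, div_one]
        congr 1
        exact Subsingleton.elim _ _
      rw [sum_congr rfl fun p _ => by rw [h2 p, sub_self], sum_const_zero, abs_zero]
      simp
    rw [h1]
    simp
  | succ D ih =>
    intro r K x hrK hx hxr N hN f hf P hP F hF
    obtain ⟨T, hT⟩ : ∃ T : ℝ, T = Real.sqrt P.card * (x : ℝ) ^ δ := ⟨_, rfl⟩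
    obtain ⟨G, hG⟩ : ∃ G : ℕ → (Fin D → ℕ) → ℝ, G = fun p v => (∑ n ∈ range p, F p (Fin.cons n v)) / p := ⟨_, rfl⟩
    obtain ⟨X, hX⟩ : ∃ X, X = powersetCard r (range K) := ⟨_, rfl⟩
    have hXc : (X.card : ℝ) = (K.choose r : ℝ) := by rw [hX, card_powersetCard, card_range]
    have hGp : ∀ p ∈ P, (∀ v w : Fin D → ℕ, (∀ i, v i ≡ w i [MOD p]) → G p v = G p w) ∧ (∀ v, |G p v| ≤ 1) := by
      intro p hp
      have hp0 : (0 : ℝ) < p := by exact_mod_cast (hP p hp).1.pos
      constructor
      · intro v w hvw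
        rw [hG]
        show (∑ n ∈ range p, F p (Fin.cons n v)) / (p : ℝ) = (∑ n ∈ range p, F p (Fin.cons n w)) / p
        congr 1
        refine sum_congr rfl fun n _ => (hF p hp).1 _ _ fun i => ?_
        refine Fin.cases ?_ (fun j => ?_) i
        · rw [Fin.cons_zero, Fin.cons_zero]
        · rw [Fin.cons_succ, Fin.cons_succ]; exact hvw j
      · intro v
        rw [hG]
        show |(∑ n ∈ range p, F p (Fin.cons n v)) / (p : ℝ)| ≤ 1
        rw [abs_div, abs_of_pos hp0, div_le_one hp0]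
        refine (abs_sum_le_sum_abs _ _).trans ((sum_le_sum fun n _ => (hF p hp).2 _).trans ?_)
        rw [sum_const, card_range, nsmul_eq_mul, mul_one]
    have h1 := ih r K x hrK hx hxr (Fin.tail N) (fun i => hN i.succ) (Fin.tail f) (fun i => hf i.succ) P hP G hGp
    rw [← hT, ← hX] at h1
    -- the first entry
    have h2 : ∀ v : Fin D → ℕ, ((X.filter (fun S => T <
        |∑ p ∈ P, (F p (Fin.cons (change b K (N 0) (f 0) S) v) - G p v) / 2|)).card : ℝ) ≤ (x : ℝ) ^ (-A) * (K.choose r : ℝ) := by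
      intro v
      rw [hX, hT]
      refine h r K x hrK hx hxr (N 0) (hN 0) (f 0) (hf 0) P hP (fun p n => (F p (Fin.cons n v) - G p v) / 2) ?_
      intro p hp
      have hp0 : (0 : ℝ) < p := by exact_mod_cast (hP p hp).1.pos
      refine ⟨fun n => ?_, fun n => ?_, ?_⟩
      · show (F p (Fin.cons (n + p) v) - G p v) / 2 = (F p (Fin.cons n v) - G p v) / 2
        rw [(hF p hp).1 (Fin.cons (n + p) v) (Fin.cons n v)]
        intro i
        refine Fin.cases ?_ (fun j => ?_) i
        · rw [Fin.cons_zero, Fin.cons_zero]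
          exact Nat.add_modEq_right
        · rw [Fin.cons_succ, Fin.cons_succ]
      · have h3 := (hF p hp).2 (Fin.cons n v)
        have h4 := (hGp p hp).2 v
        rw [abs_le] at h3 h4 ⊢
        constructor <;> linarith
      · show ∑ n ∈ range p, (F p (Fin.cons n v) - G p v) / 2 = 0
        rw [← sum_div, sum_sub_distrib, sum_const, card_range, nsmul_eq_mul]
        have h3 : (p : ℝ) * G p v = ∑ n ∈ range p, F p (Fin.cons n v) := by
          rw [hG]
          show (p : ℝ) * ((∑ n ∈ range p, F p (Fin.cons n v)) / (p : ℝ)) = _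
          field_simp
        rw [h3, sub_self, zero_div]
    obtain ⟨U, hU⟩ : ∃ U : (Fin D → Finset ℕ) → Fin D → ℕ, U = fun S i => change b K (Fin.tail N i) (Fin.tail f i) (S i) := ⟨_, rfl⟩
    obtain ⟨b1, hb1⟩ : ∃ b1 : (Fin D → Finset ℕ) → Prop, b1 = fun S => 2 * (D : ℝ) * T < |∑ p ∈ P, (G p (U S) - mn p D (G p))| := ⟨_, rfl⟩
    obtain ⟨b2, hb2⟩ : ∃ b2 : (Fin D → Finset ℕ) → Finset ℕ → Prop, b2 = fun S S' => T <
        |∑ p ∈ P, (F p (Fin.cons (change b K (N 0) (f 0) S') (U S)) - G p (U S)) / 2| := ⟨_, rfl⟩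
    have h1' : (((Fintype.piFinset (fun _ : Fin D => X)).filter b1).card : ℝ) ≤ D * (x : ℝ) ^ (-A) * (K.choose r : ℝ) ^ D := by
      rw [hb1, hU]
      exact h1
    have h2' : ∀ S, ((X.filter (b2 S)).card : ℝ) ≤ (x : ℝ) ^ (-A) * (K.choose r : ℝ) := by
      intro S
      rw [hb2]
      exact h2 (U S)
    rw [← hT, ← hX, card_filter]
    push_cast
    rw [sum_cons]
    have h3 : ∀ S ∈ Fintype.piFinset (fun _ : Fin D => X), ∀ S' ∈ X,
        (if 2 * ((D : ℝ) + 1) * T < |∑ p ∈ P, (F p (fun i => change b K (N i) (f i) ((Fin.cons S' S : Fin (D + 1) → Finset ℕ) i))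
          - mn p (D + 1) (F p))| then (1 : ℝ) else 0) ≤ (if b1 S then 1 else 0) + (if b2 S S' then 1 else 0) := by
      intro S _ S' _
      have hv : (fun i => change b K (N i) (f i) ((Fin.cons S' S : Fin (D + 1) → Finset ℕ) i))
          = Fin.cons (change b K (N 0) (f 0) S') (U S) := by
        funext i
        rw [hU]
        refine Fin.cases ?_ (fun j => ?_) i
        · rw [Fin.cons_zero, Fin.cons_zero]
        · rw [Fin.cons_succ, Fin.cons_succ]; rfl
      have hm : ∀ p, mn p (D + 1) (F p) = mn p D (G p) := by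
        intro p
        rw [mn_succ, hG]
      rw [hv]
      have hs : ∑ p ∈ P, (F p (Fin.cons (change b K (N 0) (f 0) S') (U S)) - mn p (D + 1) (F p))
          = 2 * ∑ p ∈ P, (F p (Fin.cons (change b K (N 0) (f 0) S') (U S)) - G p (U S)) / 2
            + ∑ p ∈ P, (G p (U S) - mn p D (G p)) := by
        rw [mul_sum, ← sum_add_distrib]
        refine sum_congr rfl fun p _ => ?_
        rw [hm]
        ring
      by_cases e1 : b1 S
      · rw [if_pos e1]
        split_ifs <;> norm_num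
      · by_cases e2 : b2 S S'
        · rw [if_pos e2]
          split_ifs <;> norm_num
        · rw [if_neg]
          · split_ifs <;> norm_num
          · rw [hb1] at e1
            rw [hb2] at e2
            simp only [not_lt] at e1 e2 ⊢
            rw [hs]
            refine (abs_add_le _ _).trans ?_
            rw [abs_mul, abs_of_pos (by norm_num : (0 : ℝ) < 2)]
            linarith
    refine (sum_le_sum fun S hS => sum_le_sum fun S' hS' => h3 S hS S' hS').trans ?_
    have h4 : ∀ S ∈ Fintype.piFinset (fun _ : Fin D => X), ∑ S' ∈ X, ((if b1 S then (1 : ℝ) else 0) + (if b2 S S' then 1 else 0))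
        ≤ (if b1 S then (1 : ℝ) else 0) * (K.choose r : ℝ) + (x : ℝ) ^ (-A) * (K.choose r : ℝ) := by
      intro S _
      rw [sum_add_distrib, sum_const, nsmul_eq_mul, hXc, mul_comm]
      refine add_le_add le_rfl ?_
      refine le_trans (le_of_eq ?_) (h2' S)
      rw [card_filter]
      push_cast
      rfl
    refine (sum_le_sum h4).trans ?_
    rw [sum_add_distrib, ← sum_mul, sum_const, nsmul_eq_mul, Fintype.card_piFinset, prod_const, card_univ, Fintype.card_fin]
    push_cast
    rw [hXc]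
    have h5 : ∑ S ∈ Fintype.piFinset (fun _ : Fin D => X), (if b1 S then (1 : ℝ) else 0)
        = (((Fintype.piFinset (fun _ : Fin D => X)).filter b1).card : ℝ) := by
      rw [card_filter]
      push_cast
      rfl
    rw [h5]
    have hC0 : (0 : ℝ) ≤ (K.choose r : ℝ) := Nat.cast_nonneg _
    calc _ ≤ (D * (x : ℝ) ^ (-A) * (K.choose r : ℝ) ^ D) * (K.choose r : ℝ)
          + (K.choose r : ℝ) ^ D * ((x : ℝ) ^ (-A) * (K.choose r : ℝ)) :=
          add_le_add (mul_le_mul_of_nonneg_right h1' hC0) le_rfl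
      _ = _ := by ring

end Pool.Agent.Q328.VD
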