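import Pool.Agent.Q328.VD.Gen

set_option autoImplicit false

/-! Few changes of digits in the entries of an integer vector: many primes in a window are good, uniformly in the sets of good
residue vectors. -/

namespace Pool.Agent.Q328.VD
open Finset Filter
open Pool.Agent.TH894.SM (change)
open Pool.Agent.TH894.ND

set_option maxHeartbeats 1000000 in
open Classical in
theorem window (M : ℕ) (b : ℕ) (hb : 2 ≤ b) (B ε κ θ : ℝ) (hB : 0 < B) (hε : 0 < ε) (hκ : 0 < κ) (hθ : 0 < θ) (D : ℕ)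
    (P : ℕ → Prop) (hpr : ∀ p, P p → p.Prime)
    (hP : ∃ y₀ : ℕ, ∀ y : ℕ, y₀ ≤ y → (y : ℝ) ^ θ ≤ (Nat.card {p : ℕ // P p ∧ p ≤ y} : ℝ)) :
    ∃ C : ℝ, 0 < C ∧ ∃ K₀ : ℕ, ∀ K : ℕ, K₀ ≤ K → ∀ r : ℕ, C * Real.log K ≤ r → 2 * r ≤ K →
      ∀ G : ∀ p : ℕ, Set (Fin D → ZMod p),
      (∀ p, P p → (K : ℝ) ^ (ε * θ / 4) < p → (p : ℝ) ≤ (K : ℝ) ^ ε → κ * (p : ℝ) ^ D ≤ (Nat.card (G p) : ℝ)) →
      ∀ N : Fin D → ℕ, (∀ i, N i < b ^ K) → ∀ s : Fin D → ℤ, (∀ i, s i = 1 ∨ s i = -1) →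
      ∀ f : Fin D → ℕ → ℕ, (∀ i j, f i j < b ∧ f i j ≠ N i / b ^ j % b) →
      (((Fintype.piFinset (fun _ : Fin D => powersetCard r (range K))).filter (fun S => Set.ncard {p : ℕ | P p ∧ (K : ℝ) ^ (ε * θ / 4) < p ∧ (p : ℝ) ≤ (K : ℝ) ^ ε ∧
        (fun i => ((s i * ((change b K (N i) (f i) (S i) : ℕ) : ℤ) : ℤ) : ZMod p)) ∈ G p} ≤ M)).card : ℝ) ≤
        (K : ℝ) ^ (-B) * (K.choose r : ℝ) ^ D := by
  obtain ⟨y₀, hy₀⟩ := hP
  obtain ⟨c, hc, x₀, hvec⟩ := vec b hb (θ / 8) ((2 * B + 2) / ε) (by positivity)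
  -- eventual inequalities in `x`
  have ev1 : ∀ᶠ x : ℕ in atTop, ((b : ℝ) * b + 1) + 4 ≤ (x : ℝ) ^ (θ / 2) :=
    ((tendsto_rpow_atTop (by positivity)).comp tendsto_natCast_atTop_atTop).eventually (eventually_ge_atTop _)
  have ev2 : ∀ᶠ x : ℕ in atTop, 4 * (D : ℝ) / κ + 2 * M / κ + 1 ≤ (x : ℝ) ^ (θ / 8) :=
    ((tendsto_rpow_atTop (by positivity)).comp tendsto_natCast_atTop_atTop).eventually (eventually_ge_atTop _)
  obtain ⟨x₁, hx₁⟩ := eventually_atTop.1 ev1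
  obtain ⟨x₂, hx₂⟩ := eventually_atTop.1 ev2
  obtain ⟨X, hX⟩ : ∃ X, X = x₀ + x₁ + x₂ + y₀ + 2 := ⟨_, rfl⟩
  have ev3 : ∀ᶠ K : ℕ in atTop, (X : ℝ) + 2 ≤ (K : ℝ) ^ (ε / 2) :=
    ((tendsto_rpow_atTop (by positivity)).comp tendsto_natCast_atTop_atTop).eventually (eventually_ge_atTop _)
  obtain ⟨K₁, hK₁⟩ := eventually_atTop.1 ev3
  refine ⟨ε / c, by positivity, K₁ + D + 1, fun K hK r hr hrK G hG N hN s hs f hf => ?_⟩
  have hK1 := hK₁ K (by omega)
  have hKD : (D : ℝ) ≤ K := by exact_mod_cast (by omega : D ≤ K)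
  have hK0 : (0 : ℝ) < K := by exact_mod_cast (by omega : 0 < K)
  have hK1' : (1 : ℝ) ≤ K := by exact_mod_cast (by omega : 1 ≤ K)
  have hX0 : (0 : ℝ) ≤ X := Nat.cast_nonneg _
  obtain ⟨u, hu⟩ : ∃ u, u = (K : ℝ) ^ (ε / 2) := ⟨_, rfl⟩
  have hu2 : (K : ℝ) ^ ε = u * u := by
    rw [hu, ← Real.rpow_add hK0]
    congr 1
    ring
  rw [← hu] at hK1
  obtain ⟨x, hx⟩ : ∃ x, x = ⌊(K : ℝ) ^ ε⌋₊ := ⟨_, rfl⟩
  have hxle : (x : ℝ) ≤ (K : ℝ) ^ ε := by rw [hx]; exact Nat.floor_le (by positivity)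
  have hxge : u ≤ x := by
    have h1 := Nat.lt_floor_add_one ((K : ℝ) ^ ε)
    rw [← hx, hu2] at h1
    nlinarith
  have hxX : X ≤ x := by
    have : (X : ℝ) ≤ x := by linarith
    exact_mod_cast this
  have hx0 : (0 : ℝ) < x := by linarith
  have e1 := hx₁ x (by omega)
  have e2 := hx₂ x (by omega)
  have e3 := hy₀ x (by omega)
  have hlog : Real.log x ≤ c * r := by
    have h1 : Real.log x ≤ Real.log ((K : ℝ) ^ ε) := Real.log_le_log hx0 hxle
    rw [Real.log_rpow hK0] at h1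
    have h2 : ε / c * Real.log K * c ≤ r * c := mul_le_mul_of_nonneg_right hr hc.le
    have h3 : ε / c * Real.log K * c = ε * Real.log K := by field_simp
    linarith
  have hcut : (K : ℝ) ^ (ε * θ / 4) ≤ (x : ℝ) ^ (θ / 2) := by
    have h1 : (K : ℝ) ^ (ε * θ / 4) = u ^ (θ / 2) := by
      rw [hu, ← Real.rpow_mul hK0.le]
      congr 1
      ring
    rw [h1]
    exact Real.rpow_le_rpow (by rw [hu]; positivity) hxge (by positivity)
  obtain ⟨z, hz⟩ : ∃ z, z = ⌊(K : ℝ) ^ (ε * θ / 4)⌋₊ := ⟨_, rfl⟩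
  have hzle : (z : ℝ) ≤ (K : ℝ) ^ (ε * θ / 4) := by rw [hz]; exact Nat.floor_le (by positivity)
  -- the primes
  obtain ⟨P', hP'⟩ : ∃ P', P' = (range (x + 1)).filter (fun p => P p ∧ b * b < p ∧ z < p) := ⟨_, rfl⟩
  have hwin : ∀ p ∈ P', (K : ℝ) ^ (ε * θ / 4) < p ∧ (p : ℝ) ≤ (K : ℝ) ^ ε := by
    intro p hp
    rw [hP', mem_filter, mem_range] at hp
    constructor
    · have h1 := hp.2.2.2
      rw [hz] at h1
      exact Nat.lt_of_floor_lt h1
    · refine le_trans ?_ hxle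
      exact_mod_cast (by omega : p ≤ x)
  have hPc : (x : ℝ) ^ (θ / 2) ≤ P'.card := by
    obtain ⟨P₁, hP₁⟩ : ∃ P₁, P₁ = (range (x + 1)).filter (fun p => P p) := ⟨_, rfl⟩
    have h1 : Nat.card {p : ℕ // P p ∧ p ≤ x} ≤ P₁.card := by
      have h2 : Nat.card {p : ℕ // P p ∧ p ≤ x} ≤ Nat.card P₁ :=
        Nat.card_le_card_of_injective (fun p : {p : ℕ // P p ∧ p ≤ x} => (⟨p.1, by
          rw [hP₁, mem_filter, mem_range]
          exact ⟨by have := p.2.2; omega, p.2.1⟩⟩ : P₁)) (fun p q h => by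
          apply Subtype.ext
          have h5 := congrArg Subtype.val h
          exact h5)
      rw [Nat.card_eq_fintype_card (α := P₁), Fintype.card_coe] at h2
      exact h2
    have h2 : P₁.card ≤ P'.card + (b * b + z + 1) := by
      have h3 : P₁ ⊆ P' ∪ range (b * b + z + 1) := by
        intro p hp
        rw [hP₁, mem_filter] at hp
        rw [mem_union, hP', mem_filter]
        by_cases h4 : b * b < p ∧ z < p
        · exact Or.inl ⟨hp.1, hp.2, h4⟩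
        · right
          rw [mem_range]
          omega
      refine (card_le_card h3).trans ((card_union_le _ _).trans ?_)
      rw [card_range]
    have h3' : (Nat.card {p : ℕ // P p ∧ p ≤ x} : ℝ) ≤ (P'.card : ℝ) + ((b : ℝ) * b + z + 1) := by exact_mod_cast h1.trans h2
    have h3 : (Nat.card {p : ℕ // P p ∧ p ≤ x} : ℝ) ≤ (P'.card : ℝ) + ((b : ℝ) * b + (x : ℝ) ^ (θ / 2) + 1) := by
      linarith
    have h4 : (x : ℝ) ^ θ = (x : ℝ) ^ (θ / 2) * (x : ℝ) ^ (θ / 2) := by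
      rw [← Real.rpow_add hx0]
      congr 1
      ring
    rw [h4] at e3
    obtain ⟨w, hw⟩ : ∃ w, w = (x : ℝ) ^ (θ / 2) := ⟨_, rfl⟩
    rw [← hw] at e3 e1 ⊢
    have hb0 : (0 : ℝ) ≤ (b : ℝ) * b := by positivity
    nlinarith
  have hmain := hvec D r K x hrK (by omega) hlog N hN f hf P' (by
    intro p hp
    rw [hP', mem_filter, mem_range] at hp
    exact ⟨hpr p hp.2.1, hp.2.2.1, by omega⟩)
    (fun p v => if (fun i => ((s i * (v i : ℤ) : ℤ) : ZMod p)) ∈ G p then (1 : ℝ) else 0) (by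
    intro p _
    constructor
    · intro v w hvw
      have h1 : (fun i => ((s i * (v i : ℤ) : ℤ) : ZMod p)) = fun i => ((s i * (w i : ℤ) : ℤ) : ZMod p) := by
        funext i
        push_cast
        rw [(ZMod.natCast_eq_natCast_iff _ _ _).2 (hvw i)]
      show (if (fun i => ((s i * (v i : ℤ) : ℤ) : ZMod p)) ∈ G p then (1 : ℝ) else 0) = _
      rw [h1]
    · intro v
      show |(if (fun i => ((s i * (v i : ℤ) : ℤ) : ZMod p)) ∈ G p then (1 : ℝ) else 0)| ≤ 1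
      split_ifs <;> norm_num)
  refine le_trans ?_ (hmain.trans ?_)
  · refine Nat.cast_le.2 (card_le_card ?_)
    intro S hS
    rw [mem_filter] at hS ⊢
    refine ⟨hS.1, ?_⟩
    obtain ⟨g, hg⟩ : ∃ g : ℕ → ℝ, g = fun p => (if (fun i => ((s i * (((change b K (N i) (f i) (S i) : ℕ)) : ℤ) : ℤ) : ZMod p)) ∈ G p
        then (1 : ℝ) else 0) := ⟨_, rfl⟩
    have h0 : ∑ p ∈ P', g p ≤ M := by
      have hfin : {p : ℕ | P p ∧ (K : ℝ) ^ (ε * θ / 4) < p ∧ (p : ℝ) ≤ (K : ℝ) ^ ε ∧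
        (fun i => ((s i * ((change b K (N i) (f i) (S i) : ℕ) : ℤ) : ℤ) : ZMod p)) ∈ G p}.Finite := by
        refine (Set.finite_Iic x).subset fun p hp => ?_
        have h9 : p ≤ ⌊(K : ℝ) ^ ε⌋₊ := Nat.le_floor hp.2.2.1
        rw [← hx] at h9
        exact h9
      have h8 : ((P'.filter (fun p => (fun i => ((s i * (((change b K (N i) (f i) (S i) : ℕ)) : ℤ) : ℤ) : ZMod p)) ∈ G p)).card) ≤ M := by
        refine le_trans ?_ hS.2
        rw [← Set.ncard_coe_finset]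
        refine Set.ncard_le_ncard ?_ hfin
        intro p hp
        have hp1 := mem_filter.1 (mem_coe.1 hp)
        have hp2 := hp1.1
        have hp3 := hwin p hp2
        rw [hP', mem_filter, mem_range] at hp2
        exact ⟨hp2.2.1, hp3.1, hp3.2, hp1.2⟩
      rw [hg, sum_boole]
      exact_mod_cast h8
    have h1 : κ * P'.card - M ≤ |∑ p ∈ P', (g p
        - mn p D (fun v => if (fun i => ((s i * (v i : ℤ) : ℤ) : ZMod p)) ∈ G p then (1 : ℝ) else 0))| := by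
      rw [sum_sub_distrib, abs_sub_comm]
      refine le_trans ?_ (le_abs_self _)
      have h7 : κ * P'.card ≤ ∑ p ∈ P', mn p D (fun v => if (fun i => ((s i * (v i : ℤ) : ℤ) : ZMod p)) ∈ G p then (1 : ℝ) else 0) := by
        rw [mul_comm, ← nsmul_eq_mul, ← sum_const]
        refine sum_le_sum fun p hp => ?_
        have hp3 := hwin p hp
        rw [hP', mem_filter, mem_range] at hp
        exact mn_ge p D (hpr p hp.2.1).pos s hs (G p) κ (hG p hp.2.1 hp3.1 hp3.2)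
      linarith
    rw [hg] at h1
    refine lt_of_lt_of_le ?_ h1
    -- `2 D sqrt P x^(θ/8) < κ P`
    have hPpos : (0 : ℝ) < P'.card := lt_of_lt_of_le (by positivity) hPc
    have hsq : (x : ℝ) ^ (θ / 4) ≤ Real.sqrt P'.card := by
      apply Real.le_sqrt_of_sq_le
      refine le_trans (le_of_eq ?_) hPc
      rw [← Real.rpow_natCast, ← Real.rpow_mul hx0.le]
      congr 1
      push_cast
      ring
    have hsplit : (x : ℝ) ^ (θ / 4) = (x : ℝ) ^ (θ / 8) * (x : ℝ) ^ (θ / 8) := by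
      rw [← Real.rpow_add hx0]
      congr 1
      ring
    have hss : (P'.card : ℝ) = Real.sqrt P'.card * Real.sqrt P'.card := (Real.mul_self_sqrt hPpos.le).symm
    obtain ⟨t, ht⟩ : ∃ t, t = (x : ℝ) ^ (θ / 8) := ⟨_, rfl⟩
    obtain ⟨q, hq⟩ : ∃ q, q = Real.sqrt P'.card := ⟨_, rfl⟩
    have hq0 : 0 < q := by rw [hq]; exact Real.sqrt_pos.2 hPpos
    rw [← ht] at e2 hsplit
    rw [hsplit, ← hq] at hsq
    rw [← hq] at hss
    rw [← hq, hss, ← ht]
    have hd0 : 0 ≤ 4 * (D : ℝ) / κ := by positivity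
    have hm0 : 0 ≤ 2 * (M : ℝ) / κ := by positivity
    have ht0 : 0 < t := by linarith
    have ht1 : 1 ≤ t := by linarith
    have h2 : 4 * (D : ℝ) < κ * t := by
      have h3 : 4 * (D : ℝ) / κ < t := by linarith
      rw [div_lt_iff₀ hκ] at h3
      linarith
    have h2' : 2 * (M : ℝ) < κ * t := by
      have h3 : 2 * (M : ℝ) / κ < t := by linarith
      rw [div_lt_iff₀ hκ] at h3
      linarith
    have htt : t * t ≤ q := hsq
    have h5 : 4 * (D : ℝ) * (q * t) < κ * (q * q) := by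
      calc 4 * (D : ℝ) * (q * t) < κ * t * (q * t) := mul_lt_mul_of_pos_right h2 (by positivity)
        _ = κ * (q * (t * t)) := by ring
        _ ≤ κ * (q * q) := mul_le_mul_of_nonneg_left (mul_le_mul_of_nonneg_left hsq hq0.le) hκ.le
    have h6 : 2 * (M : ℝ) < κ * (q * q) := by
      have h8 : t ≤ q * q := by
        have e1 : t * 1 ≤ t * t := mul_le_mul_of_nonneg_left ht1 ht0.le
        have e2 : 1 ≤ q := by linarith
        have e3 : q * 1 ≤ q * q := mul_le_mul_of_nonneg_left e2 hq0.le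
        linarith
      calc 2 * (M : ℝ) < κ * t := h2'
        _ ≤ κ * (q * q) := mul_le_mul_of_nonneg_left h8 hκ.le
    linarith
  · refine mul_le_mul_of_nonneg_right ?_ (by positivity)
    have h1 : (x : ℝ) ^ (-((2 * B + 2) / ε)) ≤ (K : ℝ) ^ (-(B + 1)) := by
      have h2 : (x : ℝ) ^ (-((2 * B + 2) / ε)) ≤ u ^ (-((2 * B + 2) / ε)) :=
        Real.rpow_le_rpow_of_nonpos (by rw [hu]; positivity) hxge (by
          have : 0 < (2 * B + 2) / ε := by positivity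
          linarith)
      refine h2.trans (le_of_eq ?_)
      rw [hu, ← Real.rpow_mul hK0.le]
      congr 1
      field_simp
    have h3 : (K : ℝ) ^ (-B) = K * (K : ℝ) ^ (-(B + 1)) := by
      nth_rw 2 [← Real.rpow_one (K : ℝ)]
      rw [← Real.rpow_add hK0]
      congr 1
      ring
    rw [h3]
    exact mul_le_mul hKD h1 (by positivity) hK0.le

end Pool.Agent.Q328.VD
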